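import Pool.Agent.Lib.MP_524519_ag.DU5.Top

/-! # Lengths: the upper bound over the extension field -/

set_option autoImplicit false
set_option linter.unusedSectionVars false

namespace Pool.Agent.DU5.AB.H21

open MvPowerSeries

section Lengths

variable {k R : Type} [Field k] [CommRing R] [Algebra k R]

theorem len_anti {I J : Ideal R} (h : I ≤ J) : len k J ≤ len k I := by
  unfold len
  exact Module.length_le_of_surjective ((Ideal.Quotient.factorₐ k h).toLinearMap)
    (Ideal.Quotient.factor_surjective h)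

theorem len_top : len k (⊤ : Ideal R) = 0 := by
  unfold len
  have : Subsingleton (R ⧸ (⊤ : Ideal R)) := Ideal.Quotient.subsingleton_iff.2 rfl
  exact Module.length_eq_zero

/-- If `c Q ⊆ I` then `len I ≤ len (I + (c)) + len Q`. -/
theorem lcol (I Q : Ideal R) (c : R) (h : ∀ q ∈ Q, c * q ∈ I) :
    len k I ≤ len k (I ⊔ Ideal.span {c}) + len k Q := by
  have hle : I ≤ I ⊔ Ideal.span {c} := le_sup_left
  let g : (R ⧸ I) →ₗ[k] (R ⧸ (I ⊔ Ideal.span {c})) := (Ideal.Quotient.factorₐ k hle).toLinearMap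
  have hg : Function.Surjective g := Ideal.Quotient.factor_surjective hle
  have h1 : Module.length k (R ⧸ I) =
      Module.length k (LinearMap.ker g) + Module.length k (R ⧸ (I ⊔ Ideal.span {c})) :=
    Module.length_eq_add_of_exact (LinearMap.ker g).subtype g (Submodule.subtype_injective _) hg
      (by rw [LinearMap.exact_iff, Submodule.range_subtype])
  -- the map `R ⧸ Q → ker g`, multiplication by `c`
  let m0 : R →ₗ[R] (R ⧸ I) := (LinearMap.mulLeft R c).range.subtype ∘ₗ
    (LinearMap.mulLeft R c).rangeRestrict |> fun φ => (Submodule.mkQ I).comp φ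
  let m1 : (R ⧸ Q) →ₗ[R] (R ⧸ I) := Submodule.liftQ Q m0 (by
    intro q hq
    rw [LinearMap.mem_ker]
    change Submodule.mkQ I (c * q) = 0
    rw [Submodule.mkQ_apply, Submodule.Quotient.mk_eq_zero]
    exact h q hq)
  have hm1 : ∀ r : R, m1 (Submodule.Quotient.mk r) = Submodule.Quotient.mk (c * r) := fun r => rfl
  have h2 : Module.length k (LinearMap.ker g) ≤ Module.length k (R ⧸ Q) := by
    let m2 : (R ⧸ Q) →ₗ[k] (R ⧸ I) := m1.restrictScalars k
    have h3 : ∀ y, m2 y ∈ LinearMap.ker g := by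
      intro y
      obtain ⟨r, rfl⟩ := Submodule.Quotient.mk_surjective _ y
      rw [LinearMap.mem_ker]
      change g (m1 (Submodule.Quotient.mk r)) = 0
      rw [hm1]
      change Ideal.Quotient.factor hle (Ideal.Quotient.mk I (c * r)) = 0
      rw [Ideal.Quotient.factor_mk, Ideal.Quotient.eq_zero_iff_mem]
      exact Ideal.mul_mem_right _ _ (Ideal.mem_sup_right (Ideal.mem_span_singleton_self c))
    refine Module.length_le_of_surjective (m2.codRestrict (LinearMap.ker g) h3) ?_
    rintro ⟨y, hy⟩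
    obtain ⟨r, rfl⟩ := Submodule.Quotient.mk_surjective _ y
    rw [LinearMap.mem_ker] at hy
    change Ideal.Quotient.factor hle (Ideal.Quotient.mk I r) = 0 at hy
    rw [Ideal.Quotient.factor_mk, Ideal.Quotient.eq_zero_iff_mem, Submodule.mem_sup] at hy
    obtain ⟨a, ha, b, hb, hab⟩ := hy
    obtain ⟨z, rfl⟩ := Ideal.mem_span_singleton'.1 hb
    refine ⟨Submodule.Quotient.mk z, Subtype.ext ?_⟩
    change m1 (Submodule.Quotient.mk z) = _
    rw [hm1, Submodule.Quotient.eq]
    rw [← hab]
    have : c * z - (a + z * c) = -a := by ring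
    rw [this]
    exact Submodule.neg_mem _ ha
  change Module.length k (R ⧸ I) ≤ _
  rw [h1, add_comm]
  exact add_le_add le_rfl h2

theorem stp (I : Ideal R) (a b : R) : len k (I ⊔ Ideal.span {a * b}) ≤
    len k (I ⊔ Ideal.span {a}) + len k (I ⊔ Ideal.span {b}) := by
  have h := lcol (k := k) (I ⊔ Ideal.span {a * b}) (I ⊔ Ideal.span {b}) a (by
    intro q hq
    rw [Submodule.mem_sup] at hq
    obtain ⟨x, hx, y, hy, rfl⟩ := hq
    obtain ⟨z, rfl⟩ := Ideal.mem_span_singleton'.1 hy
    rw [mul_add]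
    refine Ideal.add_mem _ (Ideal.mem_sup_left (Ideal.mul_mem_left _ _ hx)) ?_
    refine Ideal.mem_sup_right ?_
    rw [Ideal.mem_span_singleton']
    exact ⟨z, by ring⟩)
  have h2 : I ⊔ Ideal.span {a * b} ⊔ Ideal.span {a} = I ⊔ Ideal.span {a} := by
    rw [sup_assoc]
    congr 1
    refine sup_eq_right.2 ?_
    rw [Ideal.span_singleton_le_iff_mem]
    exact Ideal.mul_mem_right _ _ (Ideal.mem_span_singleton_self a)
  rw [h2] at h
  exact h

theorem len_pow (I : Ideal R) (a : R) (n : ℕ) :
    len k (I ⊔ Ideal.span {a ^ n}) ≤ n * len k (I ⊔ Ideal.span {a}) := by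
  induction n with
  | zero =>
    rw [pow_zero, Ideal.span_singleton_one, sup_top_eq, len_top]
    simp
  | succ n ih =>
    rw [pow_succ]
    refine (stp I (a ^ n) a).trans ?_
    push_cast
    rw [add_mul, one_mul]
    exact add_le_add ih le_rfl

theorem span3 (f a b : R) : Ideal.span {f, a, b} = Ideal.span {f, a} ⊔ Ideal.span {b} := by
  rw [← Ideal.span_union]
  congr 1
  ext x
  simp only [Set.mem_insert_iff, Set.mem_singleton_iff, Set.union_singleton]
  tauto

theorem len_prod (f a a' b : R) (s t : ℕ) : len k (Ideal.span {f, a, a' ^ s * b ^ t}) ≤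
    s * len k (Ideal.span {f, a, a'}) + t * len k (Ideal.span {f, a, b}) := by
  rw [span3, span3, span3]
  exact (stp _ _ _).trans (add_le_add (len_pow _ _ _) (len_pow _ _ _))

/-- `lcol` for several elements. -/
theorem lgen (I Q : Ideal R) (s : Finset R) (h : ∀ c ∈ s, ∀ q ∈ Q, c * q ∈ I) :
    len k I ≤ len k (I ⊔ Ideal.span (s : Set R)) + (s.card : ℕ) * len k Q := by
  classical
  induction s using Finset.induction_on with
  | empty => simp
  | insert c s hc ih =>
    have h1 := ih fun c' hc' => h c' (Finset.mem_insert_of_mem hc')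
    have h2 := lcol (k := k) (I ⊔ Ideal.span (s : Set R)) Q c
      (fun q hq => Ideal.mem_sup_left (h c (Finset.mem_insert_self _ _) q hq))
    rw [Finset.coe_insert, ← Set.union_singleton, Ideal.span_union, ← sup_assoc,
      Finset.card_insert_of_notMem hc]
    push_cast
    calc len k I ≤ len k (I ⊔ Ideal.span (s : Set R)) + (s.card : ℕ) * len k Q := h1
      _ ≤ (len k (I ⊔ Ideal.span (s : Set R) ⊔ Ideal.span {c}) + len k Q) +
          (s.card : ℕ) * len k Q := add_le_add h2 le_rfl
      _ = _ := by rw [add_mul, one_mul, add_assoc, add_comm (len k Q)]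

/-- The monomials of degree `n` in two elements. -/
noncomputable def mon2 [DecidableEq R] (b₁ b₂ : R) (n : ℕ) : Finset R :=
  (Finset.range (n + 1)).image fun i => b₁ ^ i * b₂ ^ (n - i)

theorem pow_le_mon2 [DecidableEq R] (b₁ b₂ : R) (n : ℕ) :
    Ideal.span {b₁, b₂} ^ n ≤ Ideal.span (mon2 b₁ b₂ n : Set R) := by
  induction n with
  | zero =>
    rw [pow_zero, Ideal.one_eq_top, top_le_iff, Ideal.eq_top_iff_one]
    refine Ideal.subset_span ?_
    simp [mon2]
  | succ n ih =>
    rw [pow_succ]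
    refine (Ideal.mul_mono_left ih).trans ?_
    rw [Ideal.span_mul_span', Ideal.span_le]
    rintro _ ⟨x, hx, y, hy, rfl⟩
    simp only [mon2, Finset.coe_image, Set.mem_image, Finset.mem_coe, Finset.mem_range] at hx
    obtain ⟨i, hi, rfl⟩ := hx
    refine Ideal.subset_span ?_
    simp only [mon2, Finset.coe_image, Set.mem_image, Finset.mem_coe, Finset.mem_range]
    simp only [Set.mem_insert_iff, Set.mem_singleton_iff] at hy
    rcases hy with hy | hy
    · refine ⟨i + 1, by omega, ?_⟩
      rw [Nat.add_sub_add_right]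
      change _ = b₁ ^ i * b₂ ^ (n - i) * y
      rw [hy]
      ring
    · refine ⟨i, by omega, ?_⟩
      rw [Nat.sub_add_comm (by omega : i ≤ n)]
      change _ = b₁ ^ i * b₂ ^ (n - i) * y
      rw [hy]
      ring

theorem mon2_mem [DecidableEq R] (b₁ b₂ : R) (n : ℕ) {c : R} (hc : c ∈ mon2 b₁ b₂ n) :
    c ∈ Ideal.span {b₁, b₂} ^ n := by
  simp only [mon2, Finset.mem_image, Finset.mem_range] at hc
  obtain ⟨i, hi, rfl⟩ := hc
  have h1 : b₁ ∈ Ideal.span {b₁, b₂} := Ideal.subset_span (by simp)
  have h2 : b₂ ∈ Ideal.span {b₁, b₂} := Ideal.subset_span (by simp)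
  have h3 := Ideal.mul_mem_mul (Ideal.pow_mem_pow h1 i) (Ideal.pow_mem_pow h2 (n - i))
  rwa [← pow_add, Nat.add_sub_cancel' (by omega : i ≤ n)] at h3

/-- The power of an ideal with two generators. -/
theorem len_two (f b₁ b₂ : R) (n : ℕ) : len k (Ideal.span {f} ⊔ Ideal.span {b₁, b₂} ^ n) ≤
    ((n + 1).choose 2 : ℕ) * len k (Ideal.span {f, b₁, b₂}) := by
  classical
  induction n with
  | zero =>
    rw [pow_zero, Ideal.one_eq_top, sup_top_eq, len_top]
    simp
  | succ n ih =>
    have h1 := lgen (k := k) (Ideal.span {f} ⊔ Ideal.span {b₁, b₂} ^ (n + 1))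
      (Ideal.span {f, b₁, b₂}) (mon2 b₁ b₂ n) (by
        intro c hc q hq
        have hc' := mon2_mem b₁ b₂ n hc
        rw [Ideal.mem_span_insert'] at hq
        obtain ⟨x, hx⟩ := hq
        have : c * q = c * (q + x * f) + -(c * x) * f := by ring
        rw [this]
        refine Ideal.add_mem _ (Ideal.mem_sup_right ?_) (Ideal.mem_sup_left ?_)
        · rw [pow_succ]
          exact Ideal.mul_mem_mul hc' hx
        · exact Ideal.mul_mem_left _ _ (Ideal.mem_span_singleton_self f))
    refine h1.trans ?_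
    have h2 : len k (Ideal.span {f} ⊔ Ideal.span {b₁, b₂} ^ (n + 1) ⊔
        Ideal.span (mon2 b₁ b₂ n : Set R)) ≤ len k (Ideal.span {f} ⊔ Ideal.span {b₁, b₂} ^ n) :=
      len_anti (sup_le (le_sup_left.trans le_sup_left)
        ((pow_le_mon2 b₁ b₂ n).trans le_sup_right))
    have h3 : (((mon2 b₁ b₂ n).card : ℕ) : ℕ∞) ≤ ((n + 1 : ℕ) : ℕ∞) := by
      have : (mon2 b₁ b₂ n).card ≤ n + 1 := by
        refine Finset.card_image_le.trans ?_
        simp
      exact_mod_cast this
    calc _ ≤ ((n + 1).choose 2 : ℕ) * len k (Ideal.span {f, b₁, b₂}) +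
        ((n + 1 : ℕ) : ℕ∞) * len k (Ideal.span {f, b₁, b₂}) :=
          add_le_add (h2.trans ih) (mul_le_mul' h3 le_rfl)
      _ = _ := by
        rw [← add_mul]
        congr 1
        rw [Nat.choose_succ_succ' (n + 1) 1]
        simp only [Nat.choose_one_right]
        push_cast
        ring

end Lengths

end Pool.Agent.DU5.AB.H21
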