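import Pool.Agent.Lib.MP_524519_ag.DU5.AB.Iface
import Pool.Agent.Lib.MP_524519_ag.DU5.AB.H21.Len

/-! # Base change: `len k I ≤ len F (I F⟦x⟧)` -/

set_option autoImplicit false
set_option linter.unusedSectionVars false

namespace Pool.Agent.DU5.AB.H21.Fext

open MvPowerSeries

section

variable {n : ℕ} {k F : Type} [Field k] [Field F] [Algebra k F]

/-- A `k`-linear functional of `F`, applied to the coefficients. -/
noncomputable def chi (χ : F →ₗ[k] k) : O F n →+ O k n where
  toFun g := fun u => χ (coeff u g)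
  map_zero' := by
    funext u
    change χ (coeff u (0 : O F n)) = 0
    simp
  map_add' := fun a b => by
    funext u
    change χ (coeff u (a + b)) = χ (coeff u a) + χ (coeff u b)
    simp

theorem coeff_chi (χ : F →ₗ[k] k) (g : O F n) (u : Fin n →₀ ℕ) :
    coeff u (chi χ g) = χ (coeff u g) := rfl

theorem chi_mul (χ : F →ₗ[k] k) (r : O k n) (g : O F n) :
    chi χ (MvPowerSeries.map (algebraMap k F) r * g) = r * chi χ g := by
  classical
  ext u
  rw [coeff_chi, coeff_mul, coeff_mul, map_sum]
  refine Finset.sum_congr rfl fun q _ => ?_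
  rw [coeff_chi]
  change χ (coeff q.1 (MvPowerSeries.map (algebraMap k F) r) * _) = _
  rw [coeff_map, ← Algebra.smul_def, map_smul, smul_eq_mul]

theorem chi_mem' (χ : F →ₗ[k] k) (I : Ideal (O k n)) {g : O F n} (hg : g ∈ I.map (MvPowerSeries.map (algebraMap k F))) :
    ∀ a, chi χ (a * g) ∈ I := by
  rw [Ideal.map] at hg
  induction hg using Submodule.span_induction with
  | mem x hx =>
    obtain ⟨r, hr, rfl⟩ := hx
    intro a
    rw [mul_comm, chi_mul]
    exact Ideal.mul_mem_right _ _ hr
  | zero => intro a; rw [mul_zero, map_zero]; exact Ideal.zero_mem _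
  | add x y _ _ hx hy => intro a; rw [mul_add, map_add]; exact Ideal.add_mem _ (hx a) (hy a)
  | smul b x _ hx => intro a; rw [smul_eq_mul, ← mul_assoc]; exact hx _

theorem chi_mem (χ : F →ₗ[k] k) (I : Ideal (O k n)) {g : O F n} (hg : g ∈ I.map (MvPowerSeries.map (algebraMap k F))) :
    chi χ g ∈ I := by
  have := chi_mem' χ I hg 1
  rwa [one_mul] at this

theorem chi_smul_bc (χ : F →ₗ[k] k) (c : F) (r : O k n) :
    chi χ (c • MvPowerSeries.map (algebraMap k F) r) = χ c • r := by
  ext u
  rw [coeff_chi]
  change χ (coeff u (c • MvPowerSeries.map (algebraMap k F) r)) = coeff u (χ c • r)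
  rw [coeff_smul, coeff_smul, coeff_map, mul_comm c, ← Algebra.smul_def,
    map_smul, smul_eq_mul, mul_comm]

theorem bcl (I : Ideal (O k n)) : len k I ≤ len F (I.map (MvPowerSeries.map (algebraMap k F))) := by
  unfold len
  rw [Module.length_eq_rank, Module.length_eq_rank]
  refine Cardinal.toENat.monotone' ?_
  let b := Module.Free.chooseBasis k (O k n ⧸ I)
  have hb : LinearIndependent k b := b.linearIndependent
  choose r hr using fun i => Ideal.Quotient.mk_surjective (I := I) (b i)
  have hind : LinearIndependent F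
      (fun i => (Ideal.Quotient.mk (I.map (MvPowerSeries.map (algebraMap k F))) (MvPowerSeries.map (algebraMap k F) (r i)))) := by
    rw [linearIndependent_iff']
    intro s c hc i hi
    by_contra hne
    obtain ⟨χ, hχ⟩ : ∃ χ : F →ₗ[k] k, χ (c i) ≠ 0 :=
      Module.Projective.exists_dual_ne_zero k hne
    have h1 : (∑ j ∈ s, c j • MvPowerSeries.map (algebraMap k F) (r j)) ∈ I.map (MvPowerSeries.map (algebraMap k F)) := by
      rw [← Ideal.Quotient.eq_zero_iff_mem, map_sum]
      exact hc
    have h2 := chi_mem χ I h1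
    rw [map_sum] at h2
    simp only [chi_smul_bc] at h2
    rw [linearIndependent_iff'] at hb
    refine hχ (hb s (fun j => χ (c j)) ?_ i hi)
    rw [← Ideal.Quotient.eq_zero_iff_mem, map_sum] at h2
    rw [← h2]
    refine Finset.sum_congr rfl fun j _ => ?_
    rw [← hr j]
    rfl
  have h3 := hind.cardinal_lift_le_rank
  rw [← b.mk_eq_rank'']
  simpa using h3

end

end Pool.Agent.DU5.AB.H21.Fext

namespace Pool.Agent.DU5.AB.H21

theorem fext : FEXTStatement := by
  intro k F _ _ _ n N I _
  exact Fext.bcl I

theorem lcolS : LCOLStatement := by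
  intro k R _ _ _ I Q c h
  exact lcol I Q c h

theorem pwr : PWRStatement := by
  intro k R _ _ _ f h₁ h₂ n
  exact len_two f h₁ h₂ n

theorem lpow : LPOWStatement := by
  intro k R _ _ _ f a b c s t
  exact len_prod f a b c s t

end Pool.Agent.DU5.AB.H21
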